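import Pool.Agent.W236.SC.Defs2

/-! SC-FIN: the form of a finite Coxeter group is positive definite. -/

set_option autoImplicit false

namespace Pool.Agent.W563.SC

open Pool.Agent.Helper741 Pool.Agent.W236.SC Matrix

variable {B : Type*} [Fintype B] [DecidableEq B] {M : CoxeterMatrix B}
variable {W : Type*} [Group W] (cs : CoxeterSystem M W)

include cs in
theorem ne_zero_of_finite [Finite W] (i j : B) : M i j ≠ 0 := by
  intro h0
  by_cases hij : i = j
  · subst hij
    rw [M.diagonal] at h0
    exact one_ne_zero h0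
  have hcc : cc M i j = 1 := cc_of_zero M h0
  have h1 : ∀ k : ℕ, (geo cs ((cs.simple i * cs.simple j) ^ k) (ee i)) i = 2 * k + 1 := by
    intro k
    have h2 : geo cs ((cs.simple i * cs.simple j) ^ k) = (sg M i * sg M j) ^ k := by
      rw [map_pow, map_mul, geo_simple, geo_simple]
    rw [h2, ← prod_alt_eq_pow, prod_alt_ee, if_pos (even_two_mul k), hcc, qs_of_one, qs_of_one]
    rw [Pi.add_apply, Pi.smul_apply, Pi.smul_apply]
    simp [hij]
  have h3 : Function.Injective fun k : ℕ => (cs.simple i * cs.simple j) ^ k := by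
    intro a b hab
    have h4 := h1 a
    have h5 := h1 b
    have hab' : (cs.simple i * cs.simple j) ^ a = (cs.simple i * cs.simple j) ^ b := hab
    rw [hab', h5] at h4
    have h6 : (b : ℝ) = a := by linarith
    exact_mod_cast h6.symm
  exact not_injective_infinite_finite _ h3

/-- the averaged inner product -/
noncomputable def ip [Fintype W] : (B → ℝ) →ₗ[ℝ] (B → ℝ) →ₗ[ℝ] ℝ :=
  LinearMap.mk₂ ℝ (fun x y => ∑ w : W, geo cs w x ⬝ᵥ geo cs w y)
    (fun x x' y => by
      simp only [map_add, add_dotProduct, Finset.sum_add_distrib])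
    (fun c x y => by
      simp only [map_smul, smul_dotProduct, smul_eq_mul, Finset.mul_sum])
    (fun x y y' => by
      simp only [map_add, dotProduct_add, Finset.sum_add_distrib])
    (fun c x y => by
      simp only [map_smul, dotProduct_smul, smul_eq_mul, Finset.mul_sum])

theorem ip_apply [Fintype W] (x y : B → ℝ) :
    ip cs x y = ∑ w : W, geo cs w x ⬝ᵥ geo cs w y := rfl

theorem ip_comm [Fintype W] (x y : B → ℝ) : ip cs x y = ip cs y x := by
  rw [ip_apply, ip_apply]
  exact Finset.sum_congr rfl fun w _ => dotProduct_comm _ _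

theorem ip_inv [Fintype W] (u : W) (x y : B → ℝ) :
    ip cs (geo cs u x) (geo cs u y) = ip cs x y := by
  rw [ip_apply, ip_apply]
  refine Fintype.sum_equiv (Equiv.mulRight u) _ _ fun w => ?_
  rw [Equiv.coe_mulRight, map_mul, Module.End.mul_apply, Module.End.mul_apply]

theorem ip_pos [Fintype W] (x : B → ℝ) (hx : x ≠ 0) : 0 < ip cs x x := by
  rw [ip_apply]
  have h1 : ∀ w : W, 0 ≤ geo cs w x ⬝ᵥ geo cs w x := fun w =>
    Finset.sum_nonneg fun b _ => mul_self_nonneg _
  refine Finset.sum_pos' (fun w _ => h1 w) ⟨1, Finset.mem_univ _, ?_⟩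
  rw [map_one, Module.End.one_apply]
  obtain ⟨b, hb⟩ : ∃ b, x b ≠ 0 := by
    by_contra hc
    push Not at hc
    exact hx (funext hc)
  exact Finset.sum_pos' (fun b _ => mul_self_nonneg _) ⟨b, Finset.mem_univ _,
    mul_self_pos.2 hb⟩

theorem coroot_ip [Fintype W] (i : B) (x : B → ℝ) :
    coroot M i x * ip cs (ee i) (ee i) = 2 * ip cs x (ee i) := by
  have h1 := ip_inv cs (cs.simple i) x (ee i)
  rw [geo_simple, sg_ee_self, sg_apply, map_neg, map_sub, map_smul, LinearMap.sub_apply,
    LinearMap.smul_apply, smul_eq_mul] at h1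
  linarith

include cs in
theorem pos_def [Finite W] (x : B → ℝ) (hx : x ≠ 0) : 0 < frm M x x := by
  classical
  have : Fintype W := Fintype.ofFinite W
  have hn : ∀ i, 0 < ip cs (ee i) (ee i) := fun i => ip_pos cs _ (ee_ne_zero i)
  set r : B → ℝ := fun i => (√(ip cs (ee i) (ee i)))⁻¹ with hr
  have hr0 : ∀ i, 0 < r i := fun i => inv_pos.2 (Real.sqrt_pos.2 (hn i))
  have hrr : ∀ i, r i * r i * ip cs (ee i) (ee i) = 1 := by
    intro i
    have h1 : √(ip cs (ee i) (ee i)) * √(ip cs (ee i) (ee i)) = ip cs (ee i) (ee i) :=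
      Real.mul_self_sqrt (hn i).le
    have h2 : √(ip cs (ee i) (ee i)) ≠ 0 := (Real.sqrt_pos.2 (hn i)).ne'
    calc r i * r i * ip cs (ee i) (ee i)
        = r i * r i * (√(ip cs (ee i) (ee i)) * √(ip cs (ee i) (ee i))) := by rw [h1]
      _ = 1 := by
        simp only [hr]
        field_simp
  -- the coefficients
  have hc : ∀ i j, coroot M i (ee j) = 2 * (r i * r j * ip cs (ee i) (ee j)) := by
    intro i j
    have h1 := coroot_ip cs i (ee j)
    have h2 := coroot_ip cs j (ee i)
    have h3 : coroot M i (ee j) = coroot M j (ee i) := by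
      rw [coroot_ee, coroot_ee, cc_symm]
    have h4 : ip cs (ee j) (ee i) = ip cs (ee i) (ee j) := ip_comm cs _ _
    rw [h4] at h1
    rw [← h3] at h2
    by_cases hz : coroot M i (ee j) = 0
    · rw [hz, zero_mul] at h1
      have h5 : ip cs (ee i) (ee j) = 0 := by linarith
      rw [hz, h5]
      ring
    · have h5 : ip cs (ee i) (ee i) = ip cs (ee j) (ee j) := by
        apply mul_left_cancel₀ hz
        rw [h1, h2]
      have h6 : r i = r j := by
        simp only [hr]
        rw [h5]
      have h7 := hrr i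
      rw [h6] at h7
      rw [h6]
      have h8 : 2 * (r j * r j * ip cs (ee i) (ee j)) =
          (r j * r j) * (coroot M i (ee j) * ip cs (ee i) (ee i)) := by
        rw [h1]; ring
      rw [h8]
      linear_combination (-(coroot M i (ee j))) * h7
  set z : B → ℝ := ∑ i, (x i * r i) • (ee i : B → ℝ) with hz
  have hzi : ∀ i, z i = x i * r i := by
    intro i
    rw [hz, Finset.sum_apply, Finset.sum_eq_single i]
    · simp
    · intro b _ hb
      rw [Pi.smul_apply, ee, Pi.single_eq_of_ne (Ne.symm hb), smul_zero]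
    · intro h
      exact absurd (Finset.mem_univ i) h
  have hz0 : z ≠ 0 := by
    intro h
    apply hx
    funext i
    have h1 := hzi i
    rw [h, Pi.zero_apply] at h1
    exact (mul_eq_zero.1 h1.symm).resolve_right (hr0 i).ne'
  have hx2 : x = ∑ i, x i • (ee i : B → ℝ) := by
    funext i
    rw [Finset.sum_apply, Finset.sum_eq_single i]
    · simp
    · intro b _ hb
      rw [Pi.smul_apply, ee, Pi.single_eq_of_ne (Ne.symm hb), smul_zero]
    · intro h
      exact absurd (Finset.mem_univ i) h
  have h1 : frm M x x = 2 * ip cs z z := by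
    have h2 : frm M x x = ∑ i, ∑ j, x i * (x j * coroot M i (ee j)) := by
      unfold frm
      refine Finset.sum_congr rfl fun i _ => ?_
      conv_lhs => rw [hx2]
      rw [map_sum, Finset.mul_sum]
      refine Finset.sum_congr (by rfl) fun j _ => ?_
      rw [map_smul, smul_eq_mul]
      rw [← hx2]
    have h3 : ip cs z z = ∑ i, ∑ j, (x i * r i) * ((x j * r j) * ip cs (ee i) (ee j)) := by
      rw [hz, map_sum (ip cs), LinearMap.sum_apply]
      refine Finset.sum_congr rfl fun i _ => ?_
      rw [map_smul (ip cs), LinearMap.smul_apply, map_sum, smul_eq_mul, Finset.mul_sum]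
      refine Finset.sum_congr rfl fun j _ => ?_
      rw [map_smul, smul_eq_mul]
    rw [h2, h3, Finset.mul_sum]
    refine Finset.sum_congr rfl fun i _ => ?_
    rw [Finset.mul_sum]
    refine Finset.sum_congr rfl fun j _ => ?_
    rw [hc]
    ring
  rw [h1]
  exact mul_pos two_pos (ip_pos cs z hz0)

include cs in
/-- SC-FIN (unconditional) -/
theorem fin0 : S_FIN (M := M) (W := W) := fun _ => ⟨fun i j => ne_zero_of_finite cs i j,
  fun x hx => pos_def cs x hx⟩

theorem fin_ (_hB : BaseF cs) : S_FIN (M := M) (W := W) := fin0 cs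

end Pool.Agent.W563.SC
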